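import Pool.Agent.J4.H5.EF.Rel
import Pool.Agent.J4.H5.EL.Mean
import Pool.Agent.J4.H5.EL.Sum
import Pool.Agent.J4.H5.EL.Sep

/-!
# Independent curves: the core theorem
-/

set_option autoImplicit false

open Polynomial Module

namespace Pool.Agent.J4.H5.EF

open Pool.Agent.J4.H5.EL

variable {p : ℕ} [hp : Fact p.Prime] {w : AbsoluteValue Qb ℝ} {ι : Type*} (C : Family p w ι)

omit hp in
lemma orbit_finite (x : C.Ev) : (MulAction.orbit GQ (C.root x.1 x.2)).Finite := by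
  have := C.finite x.1
  refine (Set.finite_range (C.root x.1)).subset ?_
  rintro _ ⟨σ, rfl⟩
  obtain ⟨b, hb⟩ := C.conj x.1 x.2 σ
  exact ⟨b, hb⟩

omit hp in
lemma Same.symm' {d e : ℕ} {x y : Qb} (h : Same d e x y) : Same e d y x := by
  obtain ⟨n, hn, h1⟩ := h
  exact ⟨n, hn, h1.symm⟩

/-- the ordinary eigenvalues whose slope function is in the space of the slope functions of `Z` -/
def bset (p : ℕ) (w : AbsoluteValue Qb ℝ) (C : Family p w ι) (F : Zeta p) : Set C.Ev :=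
  {x | ¬ C.IsSS x ∧ (fun σ : GQ => th w (σ • C.root x.1 x.2)) ∈ slopes p w F}

/-- two ordinary eigenvalues which are not opposite: the same or separated -/
lemma sep (hw : IsPadic p w) {x y : C.Ev} (hx : ¬ C.IsSS x) (hy : ¬ C.IsSS y)
    (hop : ¬ C.Op x y) (hsame : ¬ C.Sim x y) :
    ∃ τ : GQ, (∀ σ : GQ, th w (σ • τ • C.root x.1 x.2) = th w (σ • C.root x.1 x.2)) ∧
      ∀ σ : GQ, th w (σ • τ • C.root y.1 y.2) = - th w (σ • C.root y.1 y.2) := by
  rcases C.independent x.1 x.2 y.1 y.2 hx hy with h | h | ⟨τ, h1, h2⟩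
  · exact absurd h hsame
  · exact absurd h hop
  · refine ⟨τ, fun σ => th_same (C.e_pos _) (C.e_pos _) h1 σ, fun σ => ?_⟩
    refine th_opp hw (C.e_pos _) (C.e_pos _) h2 (fun σ' => ?_) σ
    rcases C.ordinary y.1 y.2 with h3 | h3
    · exact absurd h3 hy
    · exact h3 (σ' * τ)

lemma bset_card (hw : IsPadic p w) (F : Zeta p) (T : Finset C.Ev) (hT : ↑T ⊆ bset p w C F)
    (hT' : ∀ x ∈ T, ∀ y ∈ T, x ≠ y → ¬ C.Sim x y ∧ ¬ C.Op x y) :
    2 * T.card ≤ (transRoots F).card := by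
  have h1 := card_le_of_sep (G := GQ) (th w) (fun x => th_or x) T
    (fun x : C.Ev => C.root x.1 x.2) (fun x _ => orbit_finite C x)
    (fun x hx y hy hxy => sep C hw (hT hx).1 (hT hy).1 (hT' x hx y hy hxy).2
      (hT' x hx y hy hxy).1) (slopes p w F) (fun x hx => (hT hx).2)
  have h2 := slopes_half hw F
  omega

open Classical in
/-- A multiplicative relation between an eigenvalue of Frobenius on the cohomology of `Z` and
eigenvalues of Frobenius on `H^1` of the members of a product of curves, no two of them opposite, exists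
for small products only. -/
theorem small_of_relation (hw : IsPadic p w) (F : Zeta p) {lev : ℕ → ℕ}
    (hlev : HasLevel w F lev) {κ : Type*} (c : κ → ι) (S : Finset κ)
    (a : ∀ k, C.R (c k)) (hop : ∀ k ∈ S, ∀ l ∈ S, k ≠ l → ¬ C.Op ⟨c k, a k⟩ ⟨c l, a l⟩)
    {n j i' : ℕ} {α : Qb}
    (hn : 0 < n) (hFn : F.e ∣ n) (hCn : ∀ k ∈ S, C.e (c k) ∣ n) (hj : j ≤ 2 * F.d)
    (hα : aeval α (F.P j) = 0)
    (h : (∏ k ∈ S, C.root (c k) (a k) ^ (n / C.e (c k))) * α ^ (n / F.e) = (p : Qb) ^ (n * i')) :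
    Small C F lev (bset p w C F) c S := by
  obtain ⟨hpar, hrel⟩ := relation C hw F c S a hn hFn hCn hj hα h
  set S' : Finset κ := S.filter fun k => ¬ C.IsSS ⟨c k, a k⟩ with hS'
  have hS'1 : ∀ k ∈ S', k ∈ S := fun k hk => (Finset.mem_filter.1 hk).1
  have hS'2 : ∀ k ∈ S', ¬ C.IsSS ⟨c k, a k⟩ := fun k hk => (Finset.mem_filter.1 hk).2
  have hrel' : ∀ σ : GQ, EL.slope p w F (j, α) σ =
      - ∑ k ∈ S', th w (σ • C.root (c k) (a k)) := by
    intro σ
    rw [hrel σ]
    congr 1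
    have h1 : ∑ k ∈ S', (2 * val p w (σ (C.root (c k) (a k))) / C.e (c k) - 1) =
        ∑ k ∈ S, (2 * val p w (σ (C.root (c k) (a k))) / C.e (c k) - 1) := by
      refine Finset.sum_subset (Finset.filter_subset _ _) fun k hk hk' => ?_
      have h2 : C.IsSS ⟨c k, a k⟩ := by
        by_contra h2
        exact hk' (Finset.mem_filter.2 ⟨hk, h2⟩)
      have h3 := val_ss C hw h2 σ
      simp only at h3
      rw [h3]
      have : (C.e (c k) : ℝ) ≠ 0 := by exact_mod_cast (C.e_pos _).ne'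
      rw [div_self this, sub_self]
    rw [← h1]
    refine Finset.sum_congr rfl fun k hk => ?_
    have h3 := val_ord C hw (hS'2 k hk) σ
    simp only at h3
    rw [h3]
    have : (C.e (c k) : ℝ) ≠ 0 := by exact_mod_cast (C.e_pos _).ne'
    rw [mul_div_cancel_left₀ _ this, AlgEquiv.smul_def]
    ring
  have hsep : ∀ k ∈ S', ∀ l ∈ S', ¬ (k = l ∨ C.Sim ⟨c k, a k⟩ ⟨c l, a l⟩) → ∃ τ : GQ,
      (∀ σ : GQ, th w (σ • τ • C.root (c k) (a k)) = th w (σ • C.root (c k) (a k))) ∧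
      ∀ σ : GQ, th w (σ • τ • C.root (c l) (a l)) = - th w (σ • C.root (c l) (a l)) := by
    intro k hk l hl hkl
    push Not at hkl
    exact sep C hw (hS'2 k hk) (hS'2 l hl) (hop k (hS'1 k hk) l (hS'1 l hl) hkl.1) hkl.2
  have hsame : ∀ k ∈ S', ∀ l ∈ S', (k = l ∨ C.Sim ⟨c k, a k⟩ ⟨c l, a l⟩) → ∀ σ : GQ,
      th w (σ • C.root (c k) (a k)) = th w (σ • C.root (c l) (a l)) := by
    rintro k hk l hl (rfl | h1) σ
    · rfl
    · exact th_same (C.e_pos _) (C.e_pos _) h1 σ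
  have hfin : ∀ k ∈ S', (MulAction.orbit GQ (C.root (c k) (a k))).Finite :=
    fun k _ => orbit_finite C ⟨c k, a k⟩
  refine ⟨fun k _ => a k, fun k hk l hl hkl => hop k hk l hl hkl, fun k hk hkss => ?_, j, hj,
    ⟨i', by omega⟩, ?_⟩
  · -- membership
    refine ⟨hkss, ?_⟩
    refine mem_of_sum (G := GQ) (th w) (fun x => th_or x) S' (fun k => C.root (c k) (a k)) hfin
      (fun k l => k = l ∨ C.Sim ⟨c k, a k⟩ ⟨c l, a l⟩) hsame hsep (slopes p w F)
      (fun f hf τ => slopes_trans hf τ) ?_ k (Finset.mem_filter.2 ⟨hk, hkss⟩) (Or.inl rfl)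
    have h1 := (slopes p w F).neg_mem (slope_mem hw F hj hα)
    have h2 : (-EL.slope p w F (j, α)) = fun σ : GQ => ∑ k ∈ S', th w (σ • C.root (c k) (a k)) := by
      funext σ
      rw [Pi.neg_apply, hrel' σ, neg_neg]
    rwa [h2] at h1
  · -- the bound
    have h1 := mean_bound (G := GQ) (th w) (fun x => th_or x) S' (fun k => C.root (c k) (a k)) hfin
      (fun k l => k = l ∨ C.Sim ⟨c k, a k⟩ ⟨c l, a l⟩) hsame hsep (lev j) (fun σ => ?_)
    · have h2 : ((S.attach ×ˢ S.attach).filter fun x => ¬ C.IsSS ⟨c x.1.1, a x.1.1⟩ ∧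
          C.Sim ⟨c x.1.1, a x.1.1⟩ ⟨c x.2.1, a x.2.1⟩).card ≤
          ((S' ×ˢ S').filter fun kl => kl.1 = kl.2 ∨
            C.Sim ⟨c kl.1, a kl.1⟩ ⟨c kl.2, a kl.2⟩).card := by
        refine Finset.card_le_card_of_injOn (fun x => (x.1.1, x.2.1)) ?_ ?_
        · intro x hx
          obtain ⟨-, h3, h4⟩ := Finset.mem_filter.1 (Finset.mem_coe.1 hx)
          have h5 : ¬ C.IsSS ⟨c x.2.1, a x.2.1⟩ := by
            rintro ⟨m, hm, h5⟩
            apply h3
            obtain ⟨m', hm', h6⟩ := h4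
            simp only at h5 h6
            refine ⟨m' * m * C.e (c x.2.1), Nat.mul_pos (Nat.mul_pos hm' hm) (C.e_pos _), ?_⟩
            simp only
            calc C.root (c x.1.1) (a x.1.1) ^ (2 * (m' * m * C.e (c x.2.1)))
                = (C.root (c x.1.1) (a x.1.1) ^ (m' * C.e (c x.2.1))) ^ (2 * m) := by
                  rw [← pow_mul]; congr 1; ring
              _ = (C.root (c x.2.1) (a x.2.1) ^ (2 * m)) ^ (m' * C.e (c x.1.1)) := by
                  rw [h6, ← pow_mul, ← pow_mul]; congr 1; ring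
              _ = _ := by rw [h5, ← pow_mul]; congr 1; ring
          exact Finset.mem_coe.2 (Finset.mem_filter.2 ⟨Finset.mem_product.2
            ⟨Finset.mem_filter.2 ⟨x.1.2, h3⟩, Finset.mem_filter.2 ⟨x.2.2, h5⟩⟩, Or.inr h4⟩)
        · intro x _ y _ hxy
          have h3 := (Prod.mk.inj hxy).1
          have h4 := (Prod.mk.inj hxy).2
          exact Prod.ext (Subtype.ext h3) (Subtype.ext h4)
      have h3 : (((S' ×ˢ S').filter fun kl => kl.1 = kl.2 ∨
            C.Sim ⟨c kl.1, a kl.1⟩ ⟨c kl.2, a kl.2⟩).card : ℝ) ≤ ((lev j ^ 2 : ℕ) : ℝ) := by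
        push_cast
        exact h1
      exact h2.trans (by exact_mod_cast h3)
    · have h3 := slope_level hw hlev hj hα σ
      rwa [hrel' σ, abs_neg] at h3

end Pool.Agent.J4.H5.EF
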