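import Pool.Agent.J4.H5.EL.Defs

/-!
# Products of a variety with independent curves: definitions
-/

set_option autoImplicit false

open Polynomial

namespace Pool.Agent.J4.H5.EF

open Pool.Agent.J4.H5.EL

/-- `x` and `y`, eigenvalues of Frobenius endomorphisms over the fields with `p ^ d` and `p ^ e` elements,
are equal up to a root of unity, over a common field. -/
def Same (d e : ℕ) (x y : Qb) : Prop := ∃ n : ℕ, 0 < n ∧ x ^ (n * e) = y ^ (n * d)

/-- The product of the eigenvalues `x` and `y` is the cardinality of the field up to a root of unity,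
over a common field. -/
def Opp (p d e : ℕ) (x y : Qb) : Prop :=
  ∃ n : ℕ, 0 < n ∧ x ^ (n * e) * y ^ (n * d) = (p : Qb) ^ (n * (d * e))

/-- Smooth projective curves `X i`, `i ∈ ι`, of positive genus over an algebraic closure of the field with `p` elements,
given by their Frobenius eigenvalues: `X i` has a model over the field with `p ^ e i` elements and
`root i a`, `a ∈ R i`, are the eigenvalues of its Frobenius endomorphism on `H^1(X i)`
(`R i` has `2 g` elements, `g` the genus of `X i`).

`conj`: the conjugates of an eigenvalue are eigenvalues. `ordinary`: every eigenvalue is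
supersingular (the square root of `p ^ e i` times a root of unity) or has only the slopes `0` and `1`
(`w` is a `p`-adic absolute value). `independent`: for two eigenvalues `x`, `y` which are not
supersingular, either `x` is equal to `y` or `q / y`, up to roots of unity, or there is an
automorphism of the field of algebraic numbers which maps `x` to `x` and `y` to `q / y`, up to roots
of unity. For instance the `X i` are ordinary or supersingular elliptic curves (all of them), or
ordinary curves of any genus `g i` for which the Galois group of the characteristic polynomial of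
Frobenius is the group of all signed permutations of the `g i` pairs of conjugate roots, and the
splitting fields are linearly disjoint for nonisogenous Jacobians. -/
structure Family (p : ℕ) (w : AbsoluteValue Qb ℝ) (ι : Type*) where
  /-- the eigenlines of Frobenius -/
  R : ι → Type
  /-- the degree of the field of definition -/
  e : ι → ℕ
  /-- the eigenvalues -/
  root : ∀ i, R i → Qb
  finite : ∀ i, Finite (R i)
  nonempty : ∀ i, Nonempty (R i)
  e_pos : ∀ i, 0 < e i
  weight : ∀ i a, ∀ ρ : Qb →+* ℂ, ‖ρ (root i a)‖ ^ 2 = (p : ℝ) ^ e i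
  conj : ∀ i a, ∀ σ : GQ, ∃ b, root i b = σ (root i a)
  ordinary : ∀ i a, (∃ n, 0 < n ∧ root i a ^ (2 * n) = (p : Qb) ^ (e i * n)) ∨
    ∀ σ : GQ, w (σ (root i a)) = 1 ∨ w (σ (root i a)) = w p ^ e i
  independent : ∀ i a j b, (¬ ∃ n, 0 < n ∧ root i a ^ (2 * n) = (p : Qb) ^ (e i * n)) →
    (¬ ∃ n, 0 < n ∧ root j b ^ (2 * n) = (p : Qb) ^ (e j * n)) →
    Same (e i) (e j) (root i a) (root j b) ∨ Opp p (e i) (e j) (root i a) (root j b) ∨
      ∃ τ : GQ, Same (e i) (e i) (τ (root i a)) (root i a) ∧
        Opp p (e j) (e j) (τ (root j b)) (root j b)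

variable {p : ℕ} {w : AbsoluteValue Qb ℝ} {ι κ : Type*}

namespace Family

variable (C : Family p w ι)

/-- The eigenlines on the first cohomology of all curves. -/
abbrev Ev : Type _ := Σ i : ι, C.R i

/-- The eigenvalue is supersingular. -/
def IsSS (x : C.Ev) : Prop := ∃ n, 0 < n ∧ C.root x.1 x.2 ^ (2 * n) = (p : Qb) ^ (C.e x.1 * n)

/-- Two eigenvalues are equal up to a root of unity. -/
def Sim (x y : C.Ev) : Prop := Same (C.e x.1) (C.e y.1) (C.root x.1 x.2) (C.root y.1 y.2)

/-- The product of two eigenvalues is the cardinality of the field up to a root of unity. -/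
def Op (x y : C.Ev) : Prop := Opp p (C.e x.1) (C.e y.1) (C.root x.1 x.2) (C.root y.1 y.2)

end Family

/-- The lines of the cohomology of a curve: `H^0`, `H^2` and the eigenlines of Frobenius in `H^1`. -/
inductive Cmp (R : Type) : Type
  | zero | two
  | line (a : R)

/-- The eigenvalue of Frobenius on a line of the cohomology of `X i`. -/
noncomputable def Family.eig (C : Family p w ι) (i : ι) : Cmp (C.R i) → Qb
  | .zero => 1
  | .two => (p : Qb) ^ C.e i
  | .line a => C.root i a

open Classical in
/-- The product of the curves `X (c k)`, `k ∈ S`, is small: there are eigenvalues `a k` on `H^1(X (c k))` for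
`k ∈ S`, no two of them opposite, those which are not supersingular in `B`, such that for some
degree `j ≤ 2 d` with `j + |S|` even the number of the pairs `(k, l)` with `a k` not supersingular and equal
to `a l` up to a root of unity is at most `lev j ^ 2`. -/
def Small (C : Family p w ι) (F : Zeta p) (lev : ℕ → ℕ) (B : Set C.Ev) (c : κ → ι)
    (S : Finset κ) : Prop :=
  ∃ a : ∀ k, k ∈ S → C.R (c k),
    (∀ k hk l hl, k ≠ l → ¬ C.Op ⟨c k, a k hk⟩ ⟨c l, a l hl⟩) ∧
    (∀ k hk, ¬ C.IsSS ⟨c k, a k hk⟩ → (⟨c k, a k hk⟩ : C.Ev) ∈ B) ∧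
    ∃ j ≤ 2 * F.d, Even (j + S.card) ∧
      ((S.attach ×ˢ S.attach).filter fun x => ¬ C.IsSS ⟨c x.1.1, a x.1.1 x.1.2⟩ ∧
        C.Sim ⟨c x.1.1, a x.1.1 x.1.2⟩ ⟨c x.2.1, a x.2.1 x.2.2⟩).card ≤ lev j ^ 2

section

variable {K V : Type*} [Field K] [Algebra Qb K] [AddCommGroup V] [Module K V]

open Classical in
/-- The class `x` on `X_S × Z`, `X_S` the product of the curves `X (c k)`, `k ∈ S`, is multiplied by
`p ^ (n i)` by the Frobenius endomorphism of a model over the field with `p ^ n` elements, for some
`n`: this holds for the classes of the cycles of codimension `i`. -/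
def IsTateClass (C : Family p w ι) (F : Zeta p) (φ : Module.End K V) (c : κ → ι) (S : Finset κ)
    (i : ℕ) (x : (∀ k, Cmp (C.R (c k))) → V) : Prop :=
  ∃ n : ℕ, 0 < n ∧ F.e ∣ n ∧ (∀ k ∈ S, C.e (c k) ∣ n) ∧ ∀ s : ∀ k, Cmp (C.R (c k)),
    (∏ k ∈ S, algebraMap Qb K (C.eig (c k) (s k)) ^ (n / C.e (c k))) •
      (φ ^ (n / F.e)) (x s) = ((p : K) ^ (n * i)) • x s

open Classical in
/-- Let `κ` be a set of indices, and let `c k` be the curve with the index `k`. For finite subsets `S` of
`κ` the `K`-space `N S` is spanned by the `ℓ`-adic cohomology classes of the numerically trivial cycles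
on `X_S × Z`, where `X_S` is the product of the `X (c k)`, `k ∈ S`. By the Kunneth formula a
cohomology class on `X_S × Z` is a family of elements `x s` of the cohomology `V` of `Z`, where `s`
chooses one of the lines of the cohomology of `X (c k)` for all `k ∈ S` (we put `s k = zero` for
`k ∉ S`).

`res`, `push`: the restriction to a point of one factor, and the push forward which forgets one
factor. `pair`: push forward, forgetting two factors `k`, `l`, of the product with an algebraic
class on these two factors; by Tate's theorem the algebraic classes on the product of two curves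
span the products of those eigenlines of Frobenius in `H^1` whose eigenvalues are opposite. `tate`: `N S`
is spanned by classes of cycles. -/
structure IsNumSystem (C : Family p w ι) (F : Zeta p) (φ : Module.End K V) (c : κ → ι)
    (N : Finset κ → Submodule K ((∀ k, Cmp (C.R (c k))) → V)) : Prop where
  support : ∀ S, ∀ x ∈ N S, ∀ s : ∀ k, Cmp (C.R (c k)), (∃ k, k ∉ S ∧ s k ≠ Cmp.zero) → x s = 0
  res : ∀ S, ∀ k ∈ S, ∀ x ∈ N S,
    (fun s : ∀ k, Cmp (C.R (c k)) => if s k = Cmp.zero then x s else 0) ∈ N (S.erase k)
  push : ∀ S, ∀ k ∈ S, ∀ x ∈ N S,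
    (fun s : ∀ k, Cmp (C.R (c k)) =>
      if s k = Cmp.zero then x (Function.update s k Cmp.two) else 0) ∈ N (S.erase k)
  pair : ∀ S, ∀ k ∈ S, ∀ l ∈ S, k ≠ l → ∀ (a : C.R (c k)) (b : C.R (c l)),
    C.Op ⟨c k, a⟩ ⟨c l, b⟩ → ∃ ε : (∀ k, Cmp (C.R (c k))) → ℤˣ, ∀ x ∈ N S,
      (fun s : ∀ k, Cmp (C.R (c k)) => if s k = Cmp.zero ∧ s l = Cmp.zero then
        ((ε s : ℤˣ) : ℤ) • x (Function.update (Function.update s k (Cmp.line a)) l (Cmp.line b))
          else 0) ∈ N ((S.erase k).erase l)
  tate : ∀ S, N S ≤ Submodule.span K {x | x ∈ N S ∧ ∃ i, IsTateClass C F φ c S i x}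

end

end Pool.Agent.J4.H5.EF
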