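import Pool.Agent.J4.H5.EF.Core

/-!
# Independent curves: numerically trivial cycles on the products
-/

set_option autoImplicit false

open Polynomial Module

universe u v a b

namespace Pool.Agent.J4.H5.EF

open Pool.Agent.J4.H5.EL

variable {p : ℕ} [hp : Fact p.Prime] {w : AbsoluteValue Qb ℝ} {ι κ : Type*} (C : Family p w ι)
  {K V : Type*} [Field K] [Algebra Qb K] [AddCommGroup V] [Module K V]

omit hp in
/-- the components of a class on a product of minimal size which are not zero -/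
lemma coherent {F : Zeta p} {φ : Module.End K V} {c : κ → ι}
    {N : Finset κ → Submodule K ((∀ k, Cmp (C.R (c k))) → V)} (hN : IsNumSystem C F φ c N)
    {S : Finset κ} (hmin : ∀ S', S' ⊂ S → N S' = ⊥) {x : (∀ k, Cmp (C.R (c k))) → V}
    (hx : x ∈ N S) {s : ∀ k, Cmp (C.R (c k))} (hs : x s ≠ 0) :
    (∀ k ∈ S, ∃ a, s k = Cmp.line a) ∧
      ∀ k ∈ S, ∀ l ∈ S, k ≠ l → ∀ a b, s k = Cmp.line a → s l = Cmp.line b →
        ¬ C.Op ⟨c k, a⟩ ⟨c l, b⟩ := by
  classical
  have her : ∀ k ∈ S, N (S.erase k) = ⊥ := fun k hk => hmin _ (Finset.erase_ssubset hk)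
  refine ⟨fun k hk => ?_, fun k hk l hl hkl a b ha hb hop => ?_⟩
  · cases h : s k with
    | line a => exact ⟨a, rfl⟩
    | zero =>
      exfalso
      have h2 := hN.res S k hk x hx
      rw [her k hk, Submodule.mem_bot] at h2
      have h3 := congrFun h2 s
      simp only [Pi.zero_apply] at h3
      rw [if_pos h] at h3
      exact hs h3
    | two =>
      exfalso
      have h2 := hN.push S k hk x hx
      rw [her k hk, Submodule.mem_bot] at h2
      have h3 := congrFun h2 (Function.update s k Cmp.zero)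
      simp only [Pi.zero_apply, Function.update_self, Function.update_idem] at h3
      rw [if_pos trivial, ← h, Function.update_eq_self] at h3
      exact hs h3
  · obtain ⟨ε, hε⟩ := hN.pair S k hk l hl hkl a b hop
    have h3 := hε x hx
    have hl' : l ∈ S.erase k := Finset.mem_erase.2 ⟨hkl.symm, hl⟩
    have h4 : N ((S.erase k).erase l) = ⊥ :=
      hmin _ ((Finset.erase_ssubset hl').trans (Finset.erase_ssubset hk))
    rw [h4, Submodule.mem_bot] at h3
    have h5 := congrFun h3 (Function.update (Function.update s k Cmp.zero) l Cmp.zero)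
    simp only [Pi.zero_apply] at h5
    have h6 : Function.update (Function.update s k Cmp.zero) l Cmp.zero k = Cmp.zero := by
      rw [Function.update_of_ne hkl, Function.update_self]
    have h7 : Function.update (Function.update (Function.update (Function.update s k Cmp.zero) l
        Cmp.zero) k (Cmp.line a)) l (Cmp.line b) = s := by
      funext m
      by_cases ha' : m = l
      · subst ha'
        rw [Function.update_self, hb]
      · rw [Function.update_of_ne ha']
        by_cases ha'' : m = k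
        · subst ha''
          rw [Function.update_self, ha]
        · rw [Function.update_of_ne ha'', Function.update_of_ne ha', Function.update_of_ne ha'']
    rw [if_pos ⟨h6, Function.update_self _ _ _⟩, h7] at h5
    rcases Int.units_eq_one_or (ε (Function.update (Function.update s k Cmp.zero) l Cmp.zero))
      with h8 | h8
    · rw [h8] at h5
      simp at h5
      exact hs h5
    · rw [h8] at h5
      simp at h5
      exact hs h5

/-- A component of a class of Tate type with no opposite eigenvalues belongs to a small product. -/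
lemma small_of_tate (hw : IsPadic p w) (F : Zeta p) {φ : Module.End K V} (hφ : F.Acts φ)
    {lev : ℕ → ℕ} (hlev : HasLevel w F lev) (c : κ → ι) (S : Finset κ) {v : V} (hv : v ≠ 0)
    (s : ∀ k, Cmp (C.R (c k))) (h1 : ∀ k ∈ S, ∃ a, s k = Cmp.line a)
    (h2 : ∀ k ∈ S, ∀ l ∈ S, k ≠ l → ∀ a b, s k = Cmp.line a → s l = Cmp.line b →
        ¬ C.Op ⟨c k, a⟩ ⟨c l, b⟩)
    {n i : ℕ} (hn : 0 < n) (hFn : F.e ∣ n) (hCn : ∀ k ∈ S, C.e (c k) ∣ n)
    (hT : (∏ k ∈ S, algebraMap Qb K (C.eig (c k) (s k)) ^ (n / C.e (c k))) •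
      (φ ^ (n / F.e)) v = ((p : K) ^ (n * i)) • v) : Small C F lev (bset p w C F) c S := by
  classical
  -- the lines
  have hex : ∀ k, ∃ a : C.R (c k), k ∈ S → s k = Cmp.line a := by
    intro k
    by_cases hk : k ∈ S
    · obtain ⟨a, ha⟩ := h1 k hk
      exact ⟨a, fun _ => ha⟩
    · obtain ⟨a⟩ := C.nonempty (c k)
      exact ⟨a, fun h => absurd h hk⟩
  choose a ha using hex
  set A : Qb := ∏ k ∈ S, C.root (c k) (a k) ^ (n / C.e (c k)) with hA
  have hA0 : A ≠ 0 := Finset.prod_ne_zero_iff.2 fun k hk => pow_ne_zero _ (ev_ne C _ _)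
  have h5 : (∏ k ∈ S, algebraMap Qb K (C.eig (c k) (s k)) ^ (n / C.e (c k))) =
      algebraMap Qb K A := by
    rw [hA, map_prod]
    refine Finset.prod_congr rfl fun k hk => ?_
    rw [ha k hk, map_pow]
    rfl
  rw [h5] at hT
  have h6 : (φ ^ (n / F.e)) v = algebraMap Qb K ((p : Qb) ^ (n * i) / A) • v := by
    have h7 : algebraMap Qb K A ≠ 0 := by rwa [Ne, map_eq_zero]
    have h8 : (p : K) ^ (n * i) = algebraMap Qb K ((p : Qb) ^ (n * i)) := by
      rw [map_pow, map_natCast]
    rw [h8] at hT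
    rw [map_div₀, div_eq_inv_mul, mul_smul, ← hT, smul_smul, inv_mul_cancel₀ h7, one_smul]
  obtain ⟨j, hj, α, hα, h9⟩ := exists_root F hφ hv h6
  refine small_of_relation C hw F hlev c S a (fun k hk l hl hkl =>
    h2 k hk l hl hkl _ _ (ha k hk) (ha l hl)) hn hFn hCn hj hα (i' := i) ?_
  rw [h9, ← hA, mul_div_cancel₀ _ hA0]

/-- **Reduction to the small products.** -/
theorem num_trivial (hw : IsPadic p w) (F : Zeta p) {φ : Module.End K V} (hφ : F.Acts φ)
    {lev : ℕ → ℕ} (hlev : HasLevel w F lev)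
    (c : κ → ι) {N : Finset κ → Submodule K ((∀ k, Cmp (C.R (c k))) → V)}
    (hN : IsNumSystem C F φ c N)
    (S : Finset κ) (h : ∀ S' ⊆ S, Small C F lev (bset p w C F) c S' → N S' = ⊥) : N S = ⊥ := by
  classical
  induction S using Finset.strongInduction with
  | _ S ih =>
    have hmin : ∀ S', S' ⊂ S → N S' = ⊥ := fun S' hS' =>
      ih S' hS' fun S'' hS'' => h S'' (hS''.trans hS'.subset)
    by_cases hsm : Small C F lev (bset p w C F) c S
    · exact h S (Finset.Subset.refl S) hsm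
    · rw [eq_bot_iff]
      refine (hN.tate S).trans (Submodule.span_le.2 ?_)
      rintro x ⟨hx, i, n, hn, hFn, hCn, hT⟩
      rw [SetLike.mem_coe, Submodule.mem_bot]
      funext s
      rw [Pi.zero_apply]
      by_contra hs
      obtain ⟨h1, h2⟩ := coherent C hN hmin hx hs
      exact hsm (small_of_tate C hw F hφ hlev c S hs s h1 h2 hn hFn hCn (hT s))

omit hp in
open Classical in
/-- a small product has few members -/
lemma Small.card_le {C : Family p w ι} {F : Zeta p} {lev : ℕ → ℕ} {B : Set C.Ev} {c : κ → ι}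
    {S : Finset κ} (h : Small C F lev B c S) :
    ∃ j ≤ 2 * F.d, Even (j + S.card) ∧ S.card ≤ lev j ^ 2 + 1 := by
  obtain ⟨a, hop, -, j, hj, hpar, hsum⟩ := h
  refine ⟨j, hj, hpar, ?_⟩
  have h1 : (S.attach.filter fun k => C.IsSS ⟨c k.1, a k.1 k.2⟩).card ≤ 1 := by
    rw [Finset.card_le_one]
    intro k hk l hl
    obtain ⟨-, m, hm, h3⟩ := Finset.mem_filter.1 hk
    obtain ⟨-, m', hm', h5⟩ := Finset.mem_filter.1 hl
    by_contra hkl
    refine hop k.1 k.2 l.1 l.2 (fun h => hkl (Subtype.ext h)) ?_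
    simp only at h3 h5
    refine ⟨2 * m * m', by positivity, ?_⟩
    simp only
    calc C.root (c k.1) (a k.1 k.2) ^ (2 * m * m' * C.e (c l.1)) *
          C.root (c l.1) (a l.1 l.2) ^ (2 * m * m' * C.e (c k.1))
        = (C.root (c k.1) (a k.1 k.2) ^ (2 * m)) ^ (m' * C.e (c l.1)) *
          (C.root (c l.1) (a l.1 l.2) ^ (2 * m')) ^ (m * C.e (c k.1)) := by
          rw [← pow_mul, ← pow_mul]; congr 2 <;> ring
      _ = _ := by
          rw [h3, h5, ← pow_mul, ← pow_mul, ← pow_add]; congr 1; ring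
  have h2 : (S.attach.filter fun k => ¬ C.IsSS ⟨c k.1, a k.1 k.2⟩).card ≤
      ((S.attach ×ˢ S.attach).filter fun x => ¬ C.IsSS ⟨c x.1.1, a x.1.1 x.1.2⟩ ∧
        C.Sim ⟨c x.1.1, a x.1.1 x.1.2⟩ ⟨c x.2.1, a x.2.1 x.2.2⟩).card := by
    refine Finset.card_le_card_of_injOn (fun k => (k, k)) ?_ ?_
    · intro k hk
      obtain ⟨-, h3⟩ := Finset.mem_filter.1 (Finset.mem_coe.1 hk)
      exact Finset.mem_coe.2 (Finset.mem_filter.2 ⟨Finset.mem_product.2
        ⟨Finset.mem_attach _ _, Finset.mem_attach _ _⟩, h3, 1, one_pos, rfl⟩)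
    · intro k _ l _ h
      exact (Prod.mk.inj h).1
  have h3 := Finset.card_filter_add_card_filter_not (s := S.attach)
    (fun k => C.IsSS ⟨c k.1, a k.1 k.2⟩)
  rw [Finset.card_attach] at h3
  omega

omit hp in
lemma Small.card_le_one {C : Family p w ι} {F : Zeta p} {lev : ℕ → ℕ} {B : Set C.Ev}
    {c : κ → ι} {S : Finset κ} (h : Small C F lev B c S) (h2 : ∀ j, lev j ≤ 1)
    (h3 : ∀ j, Even j → lev j = 0) : S.card ≤ 1 := by
  obtain ⟨j, -, hpar, h5⟩ := h.card_le
  rcases Nat.even_or_odd j with hj | hj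
  · rw [h3 j hj] at h5
    omega
  · have h6 := h2 j
    have h7 : lev j ^ 2 ≤ 1 := by
      calc lev j ^ 2 ≤ 1 ^ 2 := Nat.pow_le_pow_left h6 2
        _ = 1 := one_pow 2
    have h8 : Odd S.card := by
      rcases Nat.even_or_odd S.card with h9 | h9
      · exact absurd hpar (by rw [Nat.not_even_iff_odd]; exact Odd.add_even hj h9)
      · exact h9
    obtain ⟨a, ha⟩ := h8
    omega

/-- **Numerically trivial cycles on the products of a variety with independent curves.** -/
theorem main_num {ι : Type u} (hw : IsPadic p w) (C : Family p w ι) (F : Zeta p)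
    {lev : ℕ → ℕ} (hlev : HasLevel w F lev) :
    ∃ B : Set C.Ev, (∀ T : Finset C.Ev, ↑T ⊆ B →
        (∀ x ∈ T, ∀ y ∈ T, x ≠ y → ¬ C.Sim x y ∧ ¬ C.Op x y) → 2 * T.card ≤ (transRoots F).card) ∧
      ∀ (K : Type a) (V : Type b) [Field K] [Algebra Qb K] [AddCommGroup V] [Module K V]
        (φ : Module.End K V), F.Acts φ →
      ∀ (κ : Type v) (c : κ → ι) (N : Finset κ → Submodule K ((∀ k, Cmp (C.R (c k))) → V)),
        IsNumSystem C F φ c N →
        (∀ S, (∀ S' ⊆ S, Small C F lev B c S' → N S' = ⊥) → N S = ⊥) ∧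
        (∀ S, Small C F lev B c S → ∃ j ≤ 2 * F.d, Even (j + S.card) ∧ S.card ≤ lev j ^ 2 + 1) ∧
        ((∀ j, lev j ≤ 1) → (∀ j, Even j → lev j = 0) →
          (∀ S, S.card ≤ 1 → N S = ⊥) → ∀ S, N S = ⊥) := by
  refine ⟨bset p w C F, fun T hT hT' => bset_card C hw F T hT hT',
    fun K V _ _ _ _ φ hφ κ c N hN => ?_⟩
  have h1 : ∀ S, (∀ S' ⊆ S, Small C F lev (bset p w C F) c S' → N S' = ⊥) → N S = ⊥ :=
    fun S h => num_trivial C hw F hφ hlev c hN S h
  exact ⟨h1, fun S h => h.card_le, fun h2 h3 h4 S => h1 S fun S' _ hS' =>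
    h4 S' (hS'.card_le_one h2 h3)⟩

end Pool.Agent.J4.H5.EF
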