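import Pool.Agent.J4.H5.EF.Defs

/-!
# Independent curves: motivic cohomology and K-theory of the products
-/

set_option autoImplicit false

open Polynomial

namespace Pool.Agent.J4.H5.EF

open Pool.Agent.J4.H5.EL

variable {p : ℕ} {w : AbsoluteValue Qb ℝ} {ι κ : Type*}

/-- The family `s` of lines belongs to the product of the curves with indices in `S`. -/
def Supported {C : Family p w ι} {c : κ → ι} (S : Finset κ) (s : ∀ k, Cmp (C.R (c k))) : Prop :=
  ∀ k, k ∉ S → s k = Cmp.zero

open Classical in
/-- The motive of `X_S × Z` over the algebraic closure of the field with `p` elements, with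
coefficients in the field `Qb` of the algebraic numbers, is the sum of the motives `h_s`, the tensor
product of `h(Z)` and of the motives of rank one which are given by the lines `s k` (Frobenius
eigenlines in `h^1`, `h^0 = 1`, `h^2 = L`). `H s a b` is the motivic cohomology `H^a(h_s, Q(b))` with
coefficients in `Qb`.

`two`: `h_s = h_s' ⊗ L` if `s k` is `H^2` and `s'` is `s` without this factor. `pair`: by Tate's
theorem the product of two rank one motives in `h^1` of two curves with opposite Frobenius
eigenvalues is `L`. `neg`: the cohomology vanishes for `b < 0`. `frobenius`: some power of the polynomial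
whose roots are the products of the eigenvalues of Frobenius of `s` and of the eigenvalues of Frobenius on
the cohomology of `Z` annihilates the Frobenius endomorphism of `h_s` (Kimura, if the motive of `Z` is
finite-dimensional, for instance of abelian type), and each class in `H^a(h_s, Q(b))` is
multiplied by `p ^ (n b)` by the Frobenius endomorphism relative to a field with `p ^ n` elements
over which it is defined. -/
structure IsMotivicSystem (C : Family p w ι) (F : Zeta p) (c : κ → ι)
    (H : (∀ k, Cmp (C.R (c k))) → ℤ → ℤ → Type*) [∀ s a b, AddCommGroup (H s a b)]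
    [∀ s a b, Module Qb (H s a b)] : Prop where
  two : ∀ s k, s k = Cmp.two → ∀ a b,
    Nonempty (H s a b ≃ₗ[Qb] H (Function.update s k Cmp.zero) (a - 2) (b - 1))
  pair : ∀ s k l x y, k ≠ l → s k = Cmp.line x → s l = Cmp.line y → C.Op ⟨c k, x⟩ ⟨c l, y⟩ →
    ∀ a b, Nonempty (H s a b ≃ₗ[Qb]
      H (Function.update (Function.update s k Cmp.zero) l Cmp.zero) (a - 2) (b - 1))
  neg : ∀ s a b, b < 0 → ∀ x : H s a b, x = 0
  frobenius : ∀ S s, Supported (C := C) S s → ∀ (a : ℤ) (b : ℕ) (x : H s a b),
    ∃ n m : ℕ, 0 < n ∧ F.e ∣ n ∧ (∀ k ∈ S, C.e (c k) ∣ n) ∧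
      (∏ j ∈ Finset.range (2 * F.d + 1), ((F.P j).aroots Qb).toFinset.prod fun α =>
        ((p : Qb) ^ (n * b) - (∏ k ∈ S, C.eig (c k) (s k) ^ (n / C.e (c k))) *
          α ^ (n / F.e))) ^ m • x = 0

/-- Parshin's conjecture for `X_S × Z`: `H^a(X_S × Z, Q(b)) = 0` for `a ≠ 2 b`. -/
def Parshin {C : Family p w ι} {c : κ → ι} (H : (∀ k, Cmp (C.R (c k))) → ℤ → ℤ → Type*)
    [∀ s a b, AddCommGroup (H s a b)] (S : Finset κ) : Prop :=
  ∀ s, Supported (C := C) S s → ∀ a b : ℤ, a ≠ 2 * b → ∀ x : H s a b, x = 0

/-- The groups `G m` are the K-groups `K_m(X_S × Z)`: the Chern character to the motivic cohomology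
groups `H^(2 b - m)(X_S × Z, Q(b))` has a torsion kernel. -/
def IsKTheory {C : Family p w ι} {c : κ → ι} (H : (∀ k, Cmp (C.R (c k))) → ℤ → ℤ → Type*)
    [∀ s a b, AddCommGroup (H s a b)] (S : Finset κ) (G : ℕ → Type*)
    [∀ m, AddCommGroup (G m)] : Prop :=
  ∀ m : ℕ, ∃ ch : ∀ (s : ∀ k, Cmp (C.R (c k))) (b : ℤ), G m →+ H s (2 * b - m) b,
    ∀ x : G m, (∀ s, Supported (C := C) S s → ∀ b, ch s b x = 0) → ∃ N : ℕ, 0 < N ∧ N • x = 0

end Pool.Agent.J4.H5.EF
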