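import Pool.Agent.J4.H5.EF.MainD
import Pool.Agent.J4.H5.EF.MotDefs

/-!
# Independent curves: Parshin's conjecture
-/

set_option autoImplicit false

open Polynomial Module

universe u v a

namespace Pool.Agent.J4.H5.EF

open Pool.Agent.J4.H5.EL

variable {p : ℕ} [hp : Fact p.Prime] {w : AbsoluteValue Qb ℝ} {ι κ : Type*} (C : Family p w ι)

/-- **Reduction to the small products.** -/
theorem parshin_of_small (hw : IsPadic p w) (F : Zeta p) {lev : ℕ → ℕ}
    (hlev : HasLevel w F lev) (c : κ → ι) (H : (∀ k, Cmp (C.R (c k))) → ℤ → ℤ → Type*)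
    [∀ s a b, AddCommGroup (H s a b)] [∀ s a b, Module Qb (H s a b)]
    (hH : IsMotivicSystem C F c H)
    (S : Finset κ) (h : ∀ S' ⊆ S, Small C F lev (bset p w C F) c S' → Parshin H S') :
    Parshin H S := by
  classical
  induction S using Finset.strongInduction with
  | _ S ih =>
    have hmin : ∀ S', S' ⊂ S → Parshin H S' := fun S' hS' =>
      ih S' hS' fun S'' hS'' => h S'' (hS''.trans hS'.subset)
    by_cases hsm : Small C F lev (bset p w C F) c S
    · exact h S (Finset.Subset.refl S) hsm
    · intro s hs a b hab x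
      have hup : ∀ k ∈ S, Supported (C := C) (S.erase k) (Function.update s k Cmp.zero) := by
        intro k hk l hl
        by_cases hkl : l = k
        · subst hkl
          rw [Function.update_self]
        · rw [Function.update_of_ne hkl]
          exact hs l fun h1 => hl (Finset.mem_erase.2 ⟨hkl, h1⟩)
      by_cases h0 : ∃ k ∈ S, s k = Cmp.zero
      · obtain ⟨k, hk, h1⟩ := h0
        refine hmin _ (Finset.erase_ssubset hk) s ?_ a b hab x
        have h2 := hup k hk
        rwa [← h1, Function.update_eq_self] at h2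
      by_cases h2 : ∃ k ∈ S, s k = Cmp.two
      · obtain ⟨k, hk, h1⟩ := h2
        obtain ⟨f⟩ := hH.two s k h1 a b
        have h3 := hmin _ (Finset.erase_ssubset hk) _ (hup k hk) (a - 2) (b - 1) (by omega) (f x)
        exact f.map_eq_zero_iff.1 h3
      push Not at h0 h2
      have h1 : ∀ k ∈ S, ∃ a, s k = Cmp.line a := by
        intro k hk
        cases h : s k with
        | line a => exact ⟨a, rfl⟩
        | zero => exact absurd h (h0 k hk)
        | two => exact absurd h (h2 k hk)
      by_cases h4 : ∃ k ∈ S, ∃ l ∈ S, k ≠ l ∧ ∃ x y, s k = Cmp.line x ∧ s l = Cmp.line y ∧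
          C.Op ⟨c k, x⟩ ⟨c l, y⟩
      · obtain ⟨k, hk, l, hl, hkl, x', y', hx', hy', hop⟩ := h4
        obtain ⟨f⟩ := hH.pair s k l x' y' hkl hx' hy' hop a b
        have hl' : l ∈ S.erase k := Finset.mem_erase.2 ⟨hkl.symm, hl⟩
        have h5 : Supported (C := C) ((S.erase k).erase l)
            (Function.update (Function.update s k Cmp.zero) l Cmp.zero) := by
          intro m hm
          by_cases hml : m = l
          · subst hml
            rw [Function.update_self]
          · rw [Function.update_of_ne hml]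
            exact hup k hk m fun h6 => hm (Finset.mem_erase.2 ⟨hml, h6⟩)
        have h3 := hmin _ ((Finset.erase_ssubset hl').trans (Finset.erase_ssubset hk)) _ h5
          (a - 2) (b - 1) (by omega) (f x)
        exact f.map_eq_zero_iff.1 h3
      push Not at h4
      rcases lt_or_ge b 0 with hb | hb
      · exact hH.neg s a b hb x
      obtain ⟨b, rfl⟩ := Int.eq_ofNat_of_zero_le hb
      obtain ⟨n, m, hn, hFn, hCn, hz⟩ := hH.frobenius S s hs a b x
      rcases smul_eq_zero.1 hz with h5 | h5
      · exfalso
        rcases Nat.eq_zero_or_pos m with hm | hm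
        · rw [hm, pow_zero] at h5
          exact one_ne_zero h5
        · have h6 := (pow_eq_zero_iff hm.ne').1 h5
          obtain ⟨j, hj, h7⟩ := Finset.prod_eq_zero_iff.1 h6
          obtain ⟨α, hα, h8⟩ := Finset.prod_eq_zero_iff.1 h7
          have hα' := ((mem_aroots (S := Qb)).1 (Multiset.mem_toFinset.1 hα)).2
          rw [Finset.mem_range] at hj
          apply hsm
          -- the lines
          have hex : ∀ k, ∃ a : C.R (c k), k ∈ S → s k = Cmp.line a := by
            intro k
            by_cases hk : k ∈ S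
            · obtain ⟨a, ha⟩ := h1 k hk
              exact ⟨a, fun _ => ha⟩
            · obtain ⟨a⟩ := C.nonempty (c k)
              exact ⟨a, fun h => absurd h hk⟩
          choose a' ha' using hex
          refine small_of_relation C hw F hlev c S a' (fun k hk l hl hkl =>
            h4 k hk l hl hkl _ _ (ha' k hk) (ha' l hl)) hn hFn hCn (by omega) hα' (i' := b) ?_
          rw [sub_eq_zero] at h8
          rw [h8]
          congr 1
          refine Finset.prod_congr rfl fun k hk => ?_
          rw [ha' k hk]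
          rfl
      · exact h5

/-- **Parshin's conjecture on the products of a variety with independent curves.** -/
theorem main_parshin {ι : Type u} (hw : IsPadic p w) (C : Family p w ι) (F : Zeta p)
    {lev : ℕ → ℕ} (hlev : HasLevel w F lev) :
    ∃ B : Set C.Ev, (∀ T : Finset C.Ev, ↑T ⊆ B →
        (∀ x ∈ T, ∀ y ∈ T, x ≠ y → ¬ C.Sim x y ∧ ¬ C.Op x y) → 2 * T.card ≤ (transRoots F).card) ∧
      ∀ (κ : Type v) (c : κ → ι) (H : (∀ k, Cmp (C.R (c k))) → ℤ → ℤ → Type a)
        [∀ s a b, AddCommGroup (H s a b)] [∀ s a b, Module Qb (H s a b)],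
        IsMotivicSystem C F c H →
        (∀ S, (∀ S' ⊆ S, Small C F lev B c S' → Parshin H S') → Parshin H S) ∧
        (∀ S, Small C F lev B c S → ∃ j ≤ 2 * F.d, Even (j + S.card) ∧ S.card ≤ lev j ^ 2 + 1) ∧
        ((∀ j, lev j ≤ 1) → (∀ j, Even j → lev j = 0) →
          (∀ S, S.card ≤ 1 → Parshin H S) → ∀ S, Parshin H S) ∧
        ∀ S, Parshin H S → ∀ (G : ℕ → Type a) [∀ m, AddCommGroup (G m)], IsKTheory H S G →
          ∀ m, 1 ≤ m → ∀ x : G m, ∃ N : ℕ, 0 < N ∧ N • x = 0 := by
  refine ⟨bset p w C F, fun T hT hT' => bset_card C hw F T hT hT', fun κ c H _ _ hH => ?_⟩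
  have h1 : ∀ S, (∀ S' ⊆ S, Small C F lev (bset p w C F) c S' → Parshin H S') → Parshin H S :=
    fun S h => parshin_of_small C hw F hlev c H hH S h
  refine ⟨h1, fun S h => h.card_le, fun h2 h3 h4 S => h1 S fun S' _ hS' =>
    h4 S' (hS'.card_le_one h2 h3), fun S hS G _ hG m hm x => ?_⟩
  obtain ⟨ch, hch⟩ := hG m
  exact hch x fun s hs b => hS s hs _ b (by omega) _

end Pool.Agent.J4.H5.EF
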