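import Pool.Agent.J4.H5.EF.Defs
import Pool.Agent.J4.H5.EL.Eigen

/-!
# Independent curves: relations between the eigenvalues of Frobenius
-/

set_option autoImplicit false

open Polynomial Module

namespace Pool.Agent.J4.H5.EF

open Pool.Agent.J4.H5.EL

variable {p : ℕ} [hp : Fact p.Prime] {w : AbsoluteValue Qb ℝ} {ι : Type*} (C : Family p w ι)

open Classical in
/-- the sign of the slope -/
noncomputable def th (w : AbsoluteValue Qb ℝ) (x : Qb) : ℝ := if w x = 1 then -1 else 1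

omit hp in
lemma th_or (x : Qb) : th w x = 1 ∨ th w x = -1 := by
  unfold th
  split_ifs
  · exact Or.inr rfl
  · exact Or.inl rfl

lemma ev_ne (i : ι) (a : C.R i) : C.root i a ≠ 0 := by
  intro h
  obtain ⟨ρ⟩ := exists_rho
  have h1 := C.weight i a ρ
  rw [h, map_zero, norm_zero] at h1
  have h2 : (0 : ℝ) < (p : ℝ) ^ C.e i := by
    have := hp.out.pos
    positivity
  rw [← h1] at h2
  norm_num at h2

/-- the slope of a conjugate of an eigenvalue which is not supersingular -/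
lemma val_ord (hw : IsPadic p w) {x : C.Ev} (hx : ¬ C.IsSS x) (σ : GQ) :
    2 * val p w (σ (C.root x.1 x.2)) = C.e x.1 * (1 + th w (σ (C.root x.1 x.2))) := by
  have hlt : w p ^ C.e x.1 < 1 := pow_lt_one₀ (wp_pos hw).le hw.lt_one (C.e_pos x.1).ne'
  rcases C.ordinary x.1 x.2 with h | h
  · exact absurd h hx
  · unfold th val
    rcases h σ with h1 | h1
    · rw [if_pos h1, h1, Real.log_one]
      ring
    · rw [if_neg (by rw [h1]; exact hlt.ne), h1, Real.log_pow]
      have := (logp_neg hw).ne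
      field_simp
      ring

/-- the slope of a conjugate of a supersingular eigenvalue -/
lemma val_ss (hw : IsPadic p w) {x : C.Ev} (hx : C.IsSS x) (σ : GQ) :
    2 * val p w (σ (C.root x.1 x.2)) = C.e x.1 := by
  obtain ⟨n, hn, h⟩ := hx
  have h1 : (σ (C.root x.1 x.2)) ^ (2 * n) = (p : Qb) ^ (C.e x.1 * n) := by
    rw [← map_pow, h, map_pow, map_natCast]
  have h2 := congrArg (val p w) h1
  rw [val_pow, val_p_pow hw] at h2
  push_cast at h2
  have hn' : (0 : ℝ) < n := by exact_mod_cast hn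
  have h3 : (n : ℝ) * (2 * val p w (σ (C.root x.1 x.2)) - C.e x.1) = 0 := by linarith
  rcases mul_eq_zero.1 h3 with h4 | h4
  · exact absurd h4 hn'.ne'
  · linarith

/-- the parity and the slopes of a relation -/
lemma relation (hw : IsPadic p w) (F : Zeta p) {κ : Type*} (c : κ → ι) (S : Finset κ)
    (a : ∀ k, C.R (c k)) {n j i' : ℕ} {α : Qb}
    (hn : 0 < n) (hFn : F.e ∣ n) (hCn : ∀ k ∈ S, C.e (c k) ∣ n) (hj : j ≤ 2 * F.d)
    (hα : aeval α (F.P j) = 0)
    (h' : (∏ k ∈ S, C.root (c k) (a k) ^ (n / C.e (c k))) * α ^ (n / F.e) =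
      (p : Qb) ^ (n * i')) :
    j + S.card = 2 * i' ∧ ∀ σ : GQ, EL.slope p w F (j, α) σ =
      - ∑ k ∈ S, (2 * val p w (σ (C.root (c k) (a k))) / C.e (c k) - 1) := by
  have hn' : (0 : ℝ) < n := by exact_mod_cast hn
  have hFe : (0 : ℝ) < F.e := by exact_mod_cast F.e_pos
  have hα0 : α ≠ 0 := root_ne_zero F hj hα
  have hFn' : ((n / F.e : ℕ) : ℝ) = n / F.e := Nat.cast_div hFn hFe.ne'
  have hCn' : ∀ k ∈ S, ((n / C.e (c k) : ℕ) : ℝ) = n / C.e (c k) := fun k hk =>
    Nat.cast_div (hCn k hk) (by exact_mod_cast (C.e_pos (c k)).ne')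
  -- weights
  have hwt : j + S.card = 2 * i' := by
    obtain ⟨ρ⟩ := exists_rho
    have h1 := congrArg (fun x => ‖ρ x‖ ^ 2) h'
    simp only [map_mul, map_prod, map_pow, map_natCast, norm_mul, norm_prod, norm_pow,
      mul_pow] at h1
    rw [← Finset.prod_pow] at h1
    have h2 : ∀ k ∈ S, (‖ρ (C.root (c k) (a k))‖ ^ (n / C.e (c k))) ^ 2 = (p : ℝ) ^ n := by
      intro k hk
      rw [← pow_mul, mul_comm, pow_mul, C.weight _ _ ρ, ← pow_mul, Nat.mul_div_cancel' (hCn k hk)]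
    rw [Finset.prod_congr rfl h2, Finset.prod_const, ← pow_mul, ← pow_mul,
      mul_comm (n / F.e) 2, pow_mul ‖ρ α‖, F.weight j hj α hα ρ, ← pow_mul,
      show F.e * j * (n / F.e) = n * j by
        rw [mul_right_comm, Nat.mul_div_cancel' hFn], ← pow_add] at h1
    have h3 : ‖(p : ℂ)‖ = (p : ℝ) := by simp
    rw [h3, ← pow_mul] at h1
    have h4 : (p : ℝ) ^ (n * S.card + n * j) = (p : ℝ) ^ (n * i' * 2) := h1
    have h5 : n * S.card + n * j = n * i' * 2 := by
      have hp2 : (1 : ℝ) < p := by exact_mod_cast hp.out.one_lt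
      exact pow_right_injective₀ (by linarith) hp2.ne' h4
    have h6 : n * (j + S.card) = n * (2 * i') := by rw [mul_add]; linarith
    exact Nat.eq_of_mul_eq_mul_left hn h6
  refine ⟨hwt, fun σ => ?_⟩
  have h1 := congrArg (fun x => val p w (σ x)) h'
  simp only [map_mul, map_prod, map_pow, map_natCast] at h1
  have hr : ∀ k, σ (C.root (c k) (a k)) ≠ 0 := fun k => by
    rw [Ne, map_eq_zero]
    exact ev_ne C _ _
  have hσα : σ α ≠ 0 := by rwa [Ne, map_eq_zero]
  rw [val_mul hw (Finset.prod_ne_zero_iff.2 fun k _ => pow_ne_zero _ (hr k)) (pow_ne_zero _ hσα),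
    val_prod hw S _ (fun k _ => pow_ne_zero _ (hr k)), val_pow, val_p_pow hw] at h1
  have h2 : ∀ k ∈ S, val p w (σ (C.root (c k) (a k)) ^ (n / C.e (c k))) =
      n / 2 * (2 * val p w (σ (C.root (c k) (a k))) / C.e (c k) - 1) + n / 2 := by
    intro k hk
    rw [val_pow, hCn' k hk]
    ring
  rw [Finset.sum_congr rfl h2, Finset.sum_add_distrib, ← Finset.mul_sum, Finset.sum_const,
    nsmul_eq_mul, hFn'] at h1
  have h3 : (j : ℝ) + S.card = 2 * i' := by exact_mod_cast hwt
  push_cast at h1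
  unfold EL.slope
  simp only
  have h4 : (n : ℝ) / 2 * (2 * val p w (σ α) / F.e - j + ∑ k ∈ S,
      (2 * val p w (σ (C.root (c k) (a k))) / C.e (c k) - 1)) = 0 := by
    have h5 : (n : ℝ) * i' = n / 2 * (j + S.card) := by rw [h3]; ring
    rw [h5] at h1
    have h6 : (n : ℝ) / F.e * val p w (σ α) = n / 2 * (2 * val p w (σ α) / F.e) := by ring
    rw [h6] at h1
    linarith
  rcases mul_eq_zero.1 h4 with h5 | h5
  · linarith
  · linarith

/-! ### Same and opposite eigenvalues -/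

omit hp in
lemma w_pow_eq_one {x : Qb} {n : ℕ} (hn : 0 < n) : w x ^ n = 1 ↔ w x = 1 := by
  constructor
  · intro h
    exact (pow_eq_one_iff_of_nonneg (w.nonneg x) hn.ne').1 h
  · intro h
    rw [h, one_pow]

lemma th_same {d e : ℕ} (hd : 0 < d) (he : 0 < e) {x y : Qb} (h : Same d e x y) (σ : GQ) :
    th w (σ x) = th w (σ y) := by
  obtain ⟨n, hn, h1⟩ := h
  have h2 : w (σ x) ^ (n * e) = w (σ y) ^ (n * d) := by
    rw [← map_pow, ← map_pow, ← map_pow, ← map_pow, h1]
  have h3 : w (σ x) = 1 ↔ w (σ y) = 1 := by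
    rw [← w_pow_eq_one (Nat.mul_pos hn he), h2, w_pow_eq_one (Nat.mul_pos hn hd)]
  unfold th
  by_cases h4 : w (σ x) = 1
  · rw [if_pos h4, if_pos (h3.1 h4)]
  · rw [if_neg h4, if_neg fun h5 => h4 (h3.2 h5)]

lemma th_opp (hw : IsPadic p w) {d e : ℕ} (hd : 0 < d) (he : 0 < e) {x y : Qb}
    (h : Opp p d e x y) (hx : ∀ σ : GQ, w (σ x) = 1 ∨ w (σ x) = w p ^ d) (σ : GQ) :
    th w (σ x) = - th w (σ y) := by
  obtain ⟨n, hn, h1⟩ := h
  have h2 : w (σ x) ^ (n * e) * w (σ y) ^ (n * d) = w p ^ (n * (d * e)) := by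
    rw [← map_pow, ← map_pow, ← map_pow, ← map_pow, ← map_mul, ← map_mul, h1, map_pow, map_natCast,
      map_pow]
  have hlt : ∀ m : ℕ, 0 < m → w p ^ m < 1 := fun m hm =>
    pow_lt_one₀ (wp_pos hw).le hw.lt_one hm.ne'
  have hpos : 0 < w p := wp_pos hw
  unfold th
  rcases hx σ with h3 | h3
  · rw [h3, one_pow, one_mul] at h2
    have h4 : w (σ y) ≠ 1 := by
      intro h5
      rw [h5, one_pow] at h2
      exact (hlt (n * (d * e)) (by positivity)).ne h2.symm
    rw [if_pos h3, if_neg h4]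
  · have h4 : w (σ x) ≠ 1 := by
      rw [h3]
      exact (hlt d hd).ne
    have h5 : w (σ y) = 1 := by
      rw [h3, ← pow_mul, show d * (n * e) = n * (d * e) by ring] at h2
      have h6 : w p ^ (n * (d * e)) ≠ 0 := (pow_pos hpos _).ne'
      have h7 : w (σ y) ^ (n * d) = 1 := by
        have h8 := mul_left_cancel₀ h6 (h2.trans (mul_one _).symm)
        exact h8
      exact (w_pow_eq_one (Nat.mul_pos hn hd)).1 h7
    rw [if_neg h4, if_pos h5, neg_neg]

end Pool.Agent.J4.H5.EF
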